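import Pool.Agent.helper38.OV.Spec
import Pool.Agent.helper34.OM.UFT

/-!
# Project OV (MP_bf63dc_nt), row UF3
-/

set_option autoImplicit false

namespace Pool.Agent.OV

open Finset Real Pool.Agent.AT Pool.Agent.helper85.FC Pool.Agent.OM

theorem UF3 (h1 : OM.EEB_stmt) (h2 : OM.PA2_stmt) (h3 : OM.SHF_stmt) : UF3_stmt := by
  intro a b L D R₀ R Y Q m hD hQ hYQ hRa hRb φ ψ hφ hψ
  set g : ℤ → ℤ → ℝ := fun x y => (∑ d ∈ range D, gm L φ ψ m (x + (a : ℤ) * d) (y + (b : ℤ) * d)) / D with hg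
  have hP := h2 Q hQ (XX R Y) (UFT_inj R Y Q hYQ) (fun x y => ((g x y : ℝ) : ℂ))
  have hn : ∀ x y, ‖((g x y : ℝ) : ℂ)‖ ^ 2 = g x y ^ 2 := by
    intro x y
    rw [Complex.norm_real, Real.norm_eq_abs, sq_abs]
  simp only [hn] at hP
  rw [← hP]
  refine Finset.sum_le_sum fun k _ => Finset.sum_le_sum fun l _ => ?_
  set α : ℝ := (k : ℝ) / Q
  set β : ℝ := (l : ℝ) / Q
  have hG : ∑ x ∈ XX R Y, ∑ y ∈ XX R Y, ((g x y : ℝ) : ℂ) * (ee (α * x) * ee (β * y)) =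
      ((∑ d ∈ range D, ee (-(((a : ℝ) * α + (b : ℝ) * β) * d))) / D) *
        ∑ i ∈ Ico m L, ft (XX R Y) (φ i) α * ft (XX R Y) (ψ (i - m)) β := by
    rw [← UFT_hat]
    have e1 : ∀ x y : ℤ, ((g x y : ℝ) : ℂ) * (ee (α * x) * ee (β * y)) =
        ∑ d ∈ range D, (((gm L φ ψ m (x + ((a * d : ℕ) : ℤ)) (y + ((b * d : ℕ) : ℤ)) : ℝ) : ℂ) *
          (ee (α * x) * ee (β * y))) / D := by
      intro x y
      rw [hg]
      push_cast
      rw [Finset.sum_div, Finset.sum_mul]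
      refine Finset.sum_congr rfl fun d _ => ?_
      ring
    simp only [e1]
    have e2 : ∀ x ∈ XX R Y, ∑ y ∈ XX R Y, ∑ d ∈ range D, (((gm L φ ψ m (x + ((a * d : ℕ) : ℤ)) (y + ((b * d : ℕ) : ℤ)) : ℝ) : ℂ) *
          (ee (α * x) * ee (β * y))) / D = ∑ d ∈ range D, ∑ y ∈ XX R Y, (((gm L φ ψ m (x + ((a * d : ℕ) : ℤ)) (y + ((b * d : ℕ) : ℤ)) : ℝ) : ℂ) *
          (ee (α * x) * ee (β * y))) / D := fun x _ => Finset.sum_comm
    rw [Finset.sum_congr rfl e2, Finset.sum_comm, Finset.sum_div, Finset.sum_mul]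
    refine Finset.sum_congr rfl fun d hd => ?_
    rw [Finset.mem_range] at hd
    have hs := UFT_shift h1 h3 L R₀ R Y m (a * d) (b * d)
      (le_trans (Nat.add_le_add_left (Nat.mul_le_mul_left _ hd.le) _) hRa)
      (le_trans (Nat.add_le_add_left (Nat.mul_le_mul_left _ hd.le) _) hRb) φ ψ hφ hψ α β
    simp only [← Finset.sum_div]
    rw [hs]
    have e3 : (-(((a * d : ℕ) : ℝ) * α + ((b * d : ℕ) : ℝ) * β)) =
        -(((a : ℝ) * α + (b : ℝ) * β) * d) := by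
      push_cast
      ring
    rw [e3]
    ring
  rw [hG, norm_mul, mul_pow, norm_div, Complex.norm_natCast]
  have e4 := UFT_norm D ((a : ℝ) * α + (b : ℝ) * β)
  rw [e4]
  have e5 : (‖∑ d ∈ range D, ee (((a : ℝ) * α + (b : ℝ) * β) * d)‖ / D) ^ 2 =
      FD D ((a : ℝ) * α + (b : ℝ) * β) := rfl
  rw [e5, mul_comm]
  refine mul_le_mul_of_nonneg_right (UFT_cs L m (XX R Y) φ ψ α β) ?_
  unfold FD
  positivity

end Pool.Agent.OV
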